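import Mathlib

/-!
# The core of the maximal ideal commutes with localization

For a standard graded algebra `A` over a field `k`, with `R = A_{A_+}` and `m = A_+ R`, we prove
`core(m) = core(A_+) R`, where both cores are intersections over *all* reductions (this is Q1 of
the problem as posed), and that `core(A_+)` is a homogeneous ideal when `k` is infinite.
-/

namespace Pool.Agent.Results.MP_429122_al.CoreLocalization

universe u v

/-- `J` is a reduction of the ideal `I`: `J ≤ I` and `J * I ^ n = I ^ (n + 1)` for some `n ≥ 0`. -/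
def IsReduction {S : Type v} [CommRing S] (J I : Ideal S) : Prop :=
  J ≤ I ∧ ∃ n : ℕ, J * I ^ n = I ^ (n + 1)

/-- The core of `I`: the intersection of all reductions of `I` in `S`. -/
def core {S : Type v} [CommRing S] (I : Ideal S) : Ideal S :=
  sInf {J : Ideal S | IsReduction J I}

/-- `A = ⨁ 𝒜 i` is a standard graded `k`-algebra: `𝒜 0 = k` and `A` is generated as a `k`-algebra
by finitely many elements of degree one. -/
structure IsStandardGraded {k : Type u} {A : Type v} [Field k] [CommRing A] [Algebra k A]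
    (𝒜 : ℕ → Submodule k A) [GradedAlgebra 𝒜] : Prop where
  injective : Function.Injective (algebraMap k A)
  zero_eq : 𝒜 0 = LinearMap.range (Algebra.linearMap k A)
  gen : ∃ s : Finset A, (∀ a ∈ s, a ∈ 𝒜 1) ∧ Algebra.adjoin k (s : Set A) = ⊤

section General

variable {A : Type v} [CommRing A] (P : Ideal A) [hP : P.IsMaximal]

/-- If `P` is maximal and `P ^ N ≤ I`, then `I` is contracted from the localization at `P`. -/
theorem under_map_eq {I : Ideal A} {N : ℕ} (h : P ^ N ≤ I) (hI : I ≤ P) :
    (I.map (algebraMap A (Localization.AtPrime P))).comap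
      (algebraMap A (Localization.AtPrime P)) = I := by
  have hrad : I.radical = P := by
    apply le_antisymm
    · exact (Ideal.IsPrime.radical_le_iff hP.isPrime).mpr hI
    · intro x hx
      exact ⟨N, h (Ideal.pow_mem_pow hx N)⟩
  have hprim : I.IsPrimary := Ideal.isPrimary_of_isMaximal_radical (by rw [hrad]; exact hP)
  refine IsLocalization.under_map_of_isPrimary_disjoint P.primeCompl _ hprim ?_
  rw [Set.disjoint_left]
  intro x hx hxI
  exact hx (hI hxI)

theorem pow_le_of_isReduction {J I : Ideal A} (h : IsReduction J I) : ∃ N, I ^ N ≤ J := by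
  obtain ⟨-, n, hn⟩ := h
  exact ⟨n + 1, by rw [← hn]; exact Ideal.mul_le_left⟩

theorem map_isReduction {I J : Ideal A} (h : IsReduction J I) :
    IsReduction (J.map (algebraMap A (Localization.AtPrime P)))
      (I.map (algebraMap A (Localization.AtPrime P))) := by
  obtain ⟨h1, n, hn⟩ := h
  refine ⟨Ideal.map_mono h1, n, ?_⟩
  rw [← Ideal.map_pow, ← Ideal.map_mul, hn, Ideal.map_pow]

theorem comap_isReduction {I : Ideal A} (hIP : I ≤ P) {N : ℕ} (hN : P ^ N ≤ I)
    {J : Ideal (Localization.AtPrime P)}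
    (h : IsReduction J (I.map (algebraMap A (Localization.AtPrime P)))) :
    IsReduction (J.comap (algebraMap A (Localization.AtPrime P))) I := by
  obtain ⟨h1, n, hn⟩ := h
  set L := Localization.AtPrime P with hL
  have hle : P ^ (N * (n + 1)) ≤ J.comap (algebraMap A L) := by
    rw [pow_mul]
    refine (Ideal.pow_right_mono hN (n + 1)).trans ?_
    rw [← Ideal.map_le_iff_le_comap, Ideal.map_pow, ← hn]
    exact Ideal.mul_le_left
  have hJI : J.comap (algebraMap A L) ≤ I := by
    rw [← under_map_eq P hN hIP]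
    exact Ideal.comap_mono h1
  have hmap : (J.comap (algebraMap A L)).map (algebraMap A L) = J :=
    IsLocalization.map_under P.primeCompl _ J
  refine ⟨hJI, n, ?_⟩
  have hIP2 : I ^ (n + 1) ≤ P := by
    rw [pow_succ]
    exact Ideal.mul_le_right.trans hIP
  have hb : P ^ (N * (n + 1) + N * n) ≤ J.comap (algebraMap A L) * I ^ n := by
    rw [pow_add]
    refine Ideal.mul_mono hle ?_
    rw [pow_mul]
    exact Ideal.pow_right_mono hN n
  have hc : P ^ (N * (n + 1)) ≤ I ^ (n + 1) := by
    rw [pow_mul]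
    exact Ideal.pow_right_mono hN (n + 1)
  have hd : J.comap (algebraMap A L) * I ^ n ≤ P := (Ideal.mul_mono_left hJI).trans
    (by rw [← pow_succ']; exact hIP2)
  rw [← under_map_eq P hb hd, ← under_map_eq P hc hIP2, Ideal.map_mul, hmap, Ideal.map_pow, hn,
    ← Ideal.map_pow]

/-- **The core commutes with localization at a maximal ideal**: if `P` is a maximal ideal of a
commutative ring `A` and `P ^ N ≤ I ≤ P`, then `core (I A_P) = core(I) A_P`, and the contraction
of `core (I A_P)` to `A` is `core(I)`. -/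
theorem core_map {I : Ideal A} (hIP : I ≤ P) {N : ℕ} (hN : P ^ N ≤ I) :
    core (I.map (algebraMap A (Localization.AtPrime P))) =
      (core I).map (algebraMap A (Localization.AtPrime P)) ∧
    (core (I.map (algebraMap A (Localization.AtPrime P)))).comap
      (algebraMap A (Localization.AtPrime P)) = core I := by
  have h2 : (core (I.map (algebraMap A (Localization.AtPrime P)))).comap
      (algebraMap A (Localization.AtPrime P)) = core I := by
    apply le_antisymm
    · refine le_sInf ?_
      intro J hJ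
      obtain ⟨K, hK⟩ := pow_le_of_isReduction hJ
      have hPJ : P ^ (N * K) ≤ J := by
        rw [pow_mul]
        exact (Ideal.pow_right_mono hN K).trans hK
      rw [← under_map_eq P hPJ (hJ.1.trans hIP)]
      exact Ideal.comap_mono (sInf_le (map_isReduction P hJ))
    · rw [← Ideal.map_le_iff_le_comap]
      refine le_sInf ?_
      intro J hJ
      rw [Ideal.map_le_iff_le_comap]
      exact sInf_le (comap_isReduction P hIP hN hJ)
  refine ⟨?_, h2⟩
  rw [← h2]
  exact (IsLocalization.map_under P.primeCompl _ _).symm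

end General

section Graded

variable {k : Type u} {A : Type v} [Field k] [CommRing A] [Algebra k A]
  (𝒜 : ℕ → Submodule k A) [GradedAlgebra 𝒜]

open scoped Classical

/-- In a standard graded algebra the ideal `A_+` is maximal. -/
theorem irrelevant_isMaximal (h : IsStandardGraded 𝒜) :
    (HomogeneousIdeal.irrelevant 𝒜).toIdeal.IsMaximal := by
  have hmem : ∀ a : A, a ∈ (HomogeneousIdeal.irrelevant 𝒜).toIdeal ↔
      GradedRing.proj 𝒜 0 a = 0 := fun a => HomogeneousIdeal.mem_irrelevant_iff 𝒜 a
  rw [Ideal.isMaximal_iff]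
  constructor
  · rw [hmem]
    intro h1
    have h2 : GradedRing.proj 𝒜 0 (1 : A) = 1 := by
      rw [GradedRing.proj_apply]
      exact DirectSum.decompose_of_mem_same 𝒜 SetLike.GradedOne.one_mem
    rw [h2] at h1
    have h3 : algebraMap k A 1 = algebraMap k A 0 := by rw [map_one, map_zero, h1]
    exact one_ne_zero (h.injective h3)
  · intro J x hJ hx hxJ
    have h0 : GradedRing.proj 𝒜 0 x ∈ 𝒜 0 := by
      rw [GradedRing.proj_apply]
      exact (DirectSum.decompose 𝒜 x 0).2
    rw [h.zero_eq] at h0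
    obtain ⟨c, hc⟩ := h0
    have hc' : algebraMap k A c = GradedRing.proj 𝒜 0 x := hc
    have hc0 : c ≠ 0 := by
      rintro rfl
      rw [map_zero] at hc'
      exact hx ((hmem x).mpr hc'.symm)
    have hmem2 : x - algebraMap k A c ∈ (HomogeneousIdeal.irrelevant 𝒜).toIdeal := by
      rw [hmem, map_sub, hc', sub_eq_zero]
      rw [GradedRing.proj_apply, GradedRing.proj_apply]
      exact (DirectSum.decompose_of_mem_same 𝒜 (DirectSum.decompose 𝒜 x 0).2).symm
    have h4 : algebraMap k A c ∈ J := by
      have := J.sub_mem hxJ (hJ hmem2)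
      rwa [sub_sub_cancel] at this
    have h5 := J.mul_mem_left (algebraMap k A c⁻¹) h4
    rwa [← map_mul, inv_mul_cancel₀ hc0, map_one] at h5

/-- The graded endomorphism `a_i ↦ c ^ i a_i`. -/
noncomputable def scale (c : k) : A →ₐ[k] A :=
  (DirectSum.toAlgebra k (fun i => 𝒜 i) (fun i => (c ^ i) • (𝒜 i).subtype)
    (by simp)
    (by
      intro i j a b
      simp only [LinearMap.smul_apply, Submodule.coe_subtype, SetLike.coe_gMul]
      rw [smul_mul_smul_comm, pow_add])).comp
    (DirectSum.decomposeAlgEquiv 𝒜 : A →ₐ[k] _)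

theorem scale_of_mem (c : k) {i : ℕ} {a : A} (ha : a ∈ 𝒜 i) : scale 𝒜 c a = c ^ i • a := by
  have h1 : (DirectSum.decomposeAlgEquiv 𝒜 : A →ₐ[k] _) a =
      DirectSum.of (fun i => 𝒜 i) i ⟨a, ha⟩ := DirectSum.decompose_of_mem 𝒜 ha
  unfold scale
  rw [AlgHom.comp_apply, h1]
  exact DirectSum.toAddMonoid_of
    (fun i => ((c ^ i) • (𝒜 i).subtype : 𝒜 i →ₗ[k] A).toAddMonoidHom) i (⟨a, ha⟩ : 𝒜 i)

theorem scale_apply (c : k) (a : A) :
    scale 𝒜 c a = ∑ i ∈ (DirectSum.decompose 𝒜 a).support,
      c ^ i • (DirectSum.decompose 𝒜 a i : A) := by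
  conv_lhs => rw [← DirectSum.sum_support_decompose 𝒜 a]
  rw [map_sum]
  exact Finset.sum_congr rfl fun i _ => scale_of_mem 𝒜 c (DirectSum.decompose 𝒜 a i).2

theorem scale_scale {c d : k} (h : c * d = 1) (a : A) : scale 𝒜 c (scale 𝒜 d a) = a := by
  rw [scale_apply 𝒜 d a, map_sum]
  conv_rhs => rw [← DirectSum.sum_support_decompose 𝒜 a]
  refine Finset.sum_congr rfl fun i _ => ?_
  rw [map_smul, scale_of_mem 𝒜 c (DirectSum.decompose 𝒜 a i).2, smul_smul, ← mul_pow, mul_comm d c,
    h, one_pow, one_smul]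

/-- The automorphism `a_i ↦ c ^ i a_i` of `A`. -/
noncomputable def scaleEquiv (c : kˣ) : A ≃+* A :=
  { (scale 𝒜 (c : k) : A →+* A) with
    invFun := scale 𝒜 ((c⁻¹ : kˣ) : k)
    left_inv := fun a => scale_scale 𝒜 (by simp) a
    right_inv := fun a => scale_scale 𝒜 (by simp) a }

theorem scaleEquiv_apply (c : kˣ) (a : A) : scaleEquiv 𝒜 c a = scale 𝒜 (c : k) a := rfl

theorem scale_mem_irrelevant (c : k) {a : A} (ha : a ∈ (HomogeneousIdeal.irrelevant 𝒜).toIdeal) :
    scale 𝒜 c a ∈ (HomogeneousIdeal.irrelevant 𝒜).toIdeal := by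
  rw [scale_apply]
  refine Ideal.sum_mem _ fun i _ => ?_
  rw [Algebra.smul_def]
  exact Ideal.mul_mem_left _ _ ((HomogeneousIdeal.irrelevant 𝒜).isHomogeneous i ha)

theorem comap_irrelevant (c : kˣ) : (HomogeneousIdeal.irrelevant 𝒜).toIdeal.comap
    (scaleEquiv 𝒜 c : A →+* A) = (HomogeneousIdeal.irrelevant 𝒜).toIdeal := by
  ext a
  rw [Ideal.mem_comap]
  constructor
  · intro h
    have := scale_mem_irrelevant 𝒜 ((c⁻¹ : kˣ) : k) h
    have h2 : scale 𝒜 ((c⁻¹ : kˣ) : k) (scale 𝒜 (c : k) a) = a := scale_scale 𝒜 (by simp) a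
    have h3 : scale 𝒜 ((c⁻¹ : kˣ) : k) ((scaleEquiv 𝒜 c : A →+* A) a) = a := h2
    rwa [h3] at this
  · intro h
    exact scale_mem_irrelevant 𝒜 (c : k) h

theorem isReduction_comap (e : A ≃+* A) {I J : Ideal A} (h : IsReduction J I) :
    IsReduction (J.comap (e : A →+* A)) (I.comap (e : A →+* A)) := by
  obtain ⟨h1, n, hn⟩ := h
  refine ⟨Ideal.comap_mono h1, n, ?_⟩
  have h2 : ∀ K : Ideal A, K.comap (e : A →+* A) = K.map (e.symm : A →+* A) := fun K =>
    (Ideal.map_symm e).symm
  rw [h2, h2, ← Ideal.map_pow, ← Ideal.map_mul, hn, Ideal.map_pow]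

theorem scale_mem_core (c : kˣ) {a : A}
    (ha : a ∈ core (HomogeneousIdeal.irrelevant 𝒜).toIdeal) :
    scale 𝒜 (c : k) a ∈ core (HomogeneousIdeal.irrelevant 𝒜).toIdeal := by
  rw [core, Submodule.mem_sInf]
  intro J hJ
  have h1 := isReduction_comap (scaleEquiv 𝒜 c) hJ
  rw [comap_irrelevant] at h1
  have h2 := (Submodule.mem_sInf.mp ha) (Ideal.comap (scaleEquiv 𝒜 c : A →+* A) J) h1
  exact h2

/-- An ideal stable under all the automorphisms `a_i ↦ c ^ i a_i` (`c ∈ kˣ`, `k` infinite) is
homogeneous. -/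
theorem isHomogeneous_of_scale [Infinite k] {K : Ideal A}
    (hK : ∀ (c : kˣ) (a : A), a ∈ K → scale 𝒜 (c : k) a ∈ K) : K.IsHomogeneous 𝒜 := by
  intro j a ha
  by_cases hj : j ∈ (DirectSum.decompose 𝒜 a).support
  swap
  · rw [DFinsupp.notMem_support_iff] at hj
    rw [hj]
    simp
  let V := A ⧸ (K.restrictScalars k)
  have key : ∀ φ : Module.Dual k V,
      φ ((K.restrictScalars k).mkQ (DirectSum.decompose 𝒜 a j : A)) = 0 := by
    intro φ
    let p : Polynomial k := ∑ i ∈ (DirectSum.decompose 𝒜 a).support,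
      Polynomial.monomial i (φ ((K.restrictScalars k).mkQ (DirectSum.decompose 𝒜 a i : A)))
    have hp : p = 0 := by
      apply Polynomial.eq_zero_of_infinite_isRoot
      have hinf : (Set.univ \ {(0 : k)} : Set k).Infinite :=
        Set.infinite_univ.sdiff (Set.finite_singleton 0)
      refine hinf.mono ?_
      intro c hc
      have hc0 : c ≠ 0 := by simpa using hc
      have h1 := hK (Units.mk0 c hc0) a ha
      rw [Units.val_mk0, scale_apply] at h1
      have h2 : (K.restrictScalars k).mkQ (∑ i ∈ (DirectSum.decompose 𝒜 a).support,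
          c ^ i • (DirectSum.decompose 𝒜 a i : A)) = 0 := by
        rw [Submodule.mkQ_apply, Submodule.Quotient.mk_eq_zero]
        exact h1
      have h3 := congrArg φ h2
      rw [map_zero, map_sum, map_sum] at h3
      change Polynomial.IsRoot p c
      rw [Polynomial.IsRoot, Polynomial.eval_finsetSum, ← h3]
      refine Finset.sum_congr rfl fun i _ => ?_
      rw [Polynomial.eval_monomial, map_smul, map_smul, smul_eq_mul, mul_comm]
    have h4 : p.coeff j = 0 := by rw [hp, Polynomial.coeff_zero]
    rw [Polynomial.finsetSum_coeff] at h4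
    simp only [Polynomial.coeff_monomial] at h4
    rw [Finset.sum_ite_eq' , if_pos hj] at h4
    exact h4
  have h5 := (Module.forall_dual_apply_eq_zero_iff k
    ((K.restrictScalars k).mkQ (DirectSum.decompose 𝒜 a j : A))).mp key
  rw [Submodule.mkQ_apply, Submodule.Quotient.mk_eq_zero] at h5
  exact h5

theorem core_isHomogeneous [Infinite k] :
    (core (HomogeneousIdeal.irrelevant 𝒜).toIdeal).IsHomogeneous 𝒜 :=
  isHomogeneous_of_scale 𝒜 fun c _ ha => scale_mem_core 𝒜 c ha

end Graded

/-- The formula `core(I B_P) = core(I) B_P`, together with `core(I B_P) ∩ B = core(I)`. -/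
def CoreLocalizes {B : Type v} [CommRing B] (P : Ideal B) [P.IsPrime] (I : Ideal B) : Prop :=
  core (I.map (algebraMap B (Localization.AtPrime P))) =
    (core I).map (algebraMap B (Localization.AtPrime P)) ∧
  (core (I.map (algebraMap B (Localization.AtPrime P)))).comap
    (algebraMap B (Localization.AtPrime P)) = core I

/-- The formula of the problem: `core(m) = core(P) B_P`, where `m` is the maximal ideal of the
localization `B_P`. -/
def CoreFormula {B : Type v} [CommRing B] (P : Ideal B) [P.IsPrime] : Prop :=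
  core (IsLocalRing.maximalIdeal (Localization.AtPrime P)) =
    (core P).map (algebraMap B (Localization.AtPrime P))

/-- **Q1, affirmative** (as posed, cores taken over all reductions).  Let `k` be a field and
`A = ⨁ 𝒜 i` a standard graded `k`-algebra.  Then `A_+` is a maximal ideal, and for the
localization `R = A_{A_+}` with maximal ideal `m` one has `core(m) = core(A_+) R`; moreover
`core(A_+)` is a homogeneous ideal if `k` is infinite.  More generally, for every commutative ring
`B`, every maximal ideal `P` of `B` and every ideal `I` with `P ^ N ≤ I ≤ P`, one has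
`core(I B_P) = core(I) B_P` and `core(I B_P) ∩ B = core(I)`. -/
theorem result :
    (∀ (k : Type u) (A : Type v) (_ : Field k) (_ : CommRing A) (_ : Algebra k A)
      (𝒜 : ℕ → Submodule k A) (_ : GradedAlgebra 𝒜), IsStandardGraded 𝒜 →
      (∃ _ : (HomogeneousIdeal.irrelevant 𝒜).toIdeal.IsPrime,
        (HomogeneousIdeal.irrelevant 𝒜).toIdeal.IsMaximal ∧
        CoreFormula (HomogeneousIdeal.irrelevant 𝒜).toIdeal) ∧
      (Infinite k → (core (HomogeneousIdeal.irrelevant 𝒜).toIdeal).IsHomogeneous 𝒜)) ∧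
    (∀ (B : Type v) (_ : CommRing B) (P : Ideal B) (_ : P.IsPrime), P.IsMaximal →
      ∀ (I : Ideal B) (N : ℕ), P ^ N ≤ I → I ≤ P → CoreLocalizes P I) := by
  constructor
  · intro k A _ _ _ 𝒜 _ h
    have hmax := irrelevant_isMaximal 𝒜 h
    refine ⟨⟨hmax.isPrime, hmax, ?_⟩, fun _ => core_isHomogeneous 𝒜⟩
    obtain ⟨h1, h2⟩ := core_map (HomogeneousIdeal.irrelevant 𝒜).toIdeal
      (I := (HomogeneousIdeal.irrelevant 𝒜).toIdeal) le_rfl (N := 1) (by rw [pow_one])
    rw [Localization.AtPrime.map_eq_maximalIdeal] at h1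
    exact h1
  · intro B _ P _ hP I N hN hI
    exact core_map P hI hN

end Pool.Agent.Results.MP_429122_al.CoreLocalization
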